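import Mathlib
import Pool.Agent.Helper56.DML.Final

/-!
# Dynamical Mordell-Lang for wild superattracting (for instance escaping) orbits

`K` is a number field with a complex embedding `σ` and an embedding `φ` into a finite extension
`L` of `ℚ_p`.  `Φ = (Φ_1, …, Φ_m)` is a polynomial self-map of affine `m`-space over `K` of degree
at most `d`, with `p ∣ d`, such that the monomial `x_i ^ d` occurs in `Φ_i` and strictly dominates
`p`-adically all other monomials of `Φ_i` along the orbit `x 0, x 1, …` of a point.  Then all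
return sets of this orbit to Zariski closed subsets of `ℂ^m` are finite unions of arithmetic
progressions.
-/

set_option autoImplicit false

open Filter Topology

namespace Pool.Agent.Results.MP_295d38_ag.WildEscape

open Pool.Agent.Helper56.DML

/-- **Main result.** -/
theorem result
    (K : Type) [Field K] [NumberField K] (σ : K →+* ℂ)
    (p : ℕ) [Fact p.Prime]
    (L : Type) [NontriviallyNormedField L] [NormedAlgebra ℚ_[p] L] [FiniteDimensional ℚ_[p] L]
    (φ : K →+* L)
    (m d : ℕ) (hd : 2 ≤ d) (hpd : p ∣ d)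
    (Φ : Fin m → MvPolynomial (Fin m) K)
    (hdeg : ∀ i, (Φ i).totalDegree ≤ d)
    (hlead : ∀ i, (Φ i).coeff (Finsupp.single i d) ≠ 0)
    (x : ℕ → Fin m → K)
    (hx : ∀ n i, x (n + 1) i = MvPolynomial.eval (x n) (Φ i))
    (hne : ∀ i, ∀ᶠ n in atTop, x n i ≠ 0)
    (hdom : ∀ i, ∀ J ∈ (Φ i).support, J ≠ Finsupp.single i d →
      Tendsto (fun n => ‖φ (∏ j, x n j ^ J j)‖ / ‖φ (x n i)‖ ^ d) atTop (𝓝 0))
    (V : Set (MvPolynomial (Fin m) ℂ)) :
    ∃ T : Finset (ℕ × ℕ),
      {n : ℕ | ∀ P ∈ V, MvPolynomial.eval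
        ((fun (v : Fin m → ℂ) (i : Fin m) => MvPolynomial.eval v (MvPolynomial.map σ (Φ i)))^[n]
          (fun i => σ (x 0 i))) P = 0} =
      {n : ℕ | ∃ t ∈ T, ∃ k : ℕ, n = t.1 + t.2 * k} := by
  have hiter : ∀ n, (selfMap Φ)^[n] (x 0) = x n := by
    intro n
    induction n with
    | zero => rfl
    | succ n ih =>
      rw [Function.iterate_succ_apply', ih]
      funext i
      exact (hx n i).symm
  refine main p L σ φ hd hpd Φ hdeg hlead (x 0) ?_ ?_ V
  · intro i
    filter_upwards [hne i] with n hn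
    rw [hiter]
    exact hn
  · intro i J hJ hJne
    refine (hdom i J hJ hJne).congr fun n => ?_
    rw [hiter]

/-- An explicit family: `x_i ↦ x_i ^ d + c_i` with `c_i` rational, `p ∣ d` and the `p`-adic
valuation of `c_i` negative and not divisible by `d`; all rational starting points and all
Zariski closed sets are covered.  Coordinates with `c_i = 0` and nonzero starting value are
allowed too. -/
theorem explicit_family
    (p : ℕ) [Fact p.Prime] (m d : ℕ) (hd : 2 ≤ d) (hpd : p ∣ d) (c α : Fin m → ℚ)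
    (hc : ∀ i, (c i = 0 ∧ α i ≠ 0) ∨
      (padicValRat p (c i) < 0 ∧ ¬ (d : ℤ) ∣ padicValRat p (c i)))
    (V : Set (MvPolynomial (Fin m) ℂ)) :
    ∃ T : Finset (ℕ × ℕ),
      {n : ℕ | ∀ P ∈ V, MvPolynomial.eval
        ((fun (v : Fin m → ℂ) (i : Fin m) => v i ^ d + (c i : ℂ))^[n] (fun i => (α i : ℂ))) P = 0} =
      {n : ℕ | ∃ t ∈ T, ∃ k : ℕ, n = t.1 + t.2 * k} := by
  classical
  let Φ : Fin m → MvPolynomial (Fin m) ℚ := fun i =>
    MvPolynomial.X i ^ d + MvPolynomial.C (c i)
  let x : ℕ → Fin m → ℚ := fun n => (fun v i => v i ^ d + c i)^[n] α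
  have hx : ∀ n i, x (n + 1) i = x n i ^ d + c i := by
    intro n i
    simp only [x]
    rw [Function.iterate_succ_apply']
  have hd0 : d ≠ 0 := by omega
  have hsingle : ∀ i : Fin m, Finsupp.single i d ≠ 0 := fun i => by
    rw [Ne, Finsupp.single_eq_zero]; exact hd0
  have hcoeff : ∀ i J, (Φ i).coeff J = (if Finsupp.single i d = J then 1 else 0) +
      (if (0 : Fin m →₀ ℕ) = J then c i else 0) := by
    intro i J
    simp only [Φ]
    rw [MvPolynomial.coeff_add, MvPolynomial.coeff_X_pow, MvPolynomial.coeff_C]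
  have hcompl : ((fun (v : Fin m → ℂ) (i : Fin m) => v i ^ d + (c i : ℂ))) =
      (fun (v : Fin m → ℂ) (i : Fin m) => MvPolynomial.eval v
        (MvPolynomial.map (algebraMap ℚ ℂ) (Φ i))) := by
    funext v i
    simp [Φ]
  have hratnorm : ∀ q : ℚ, q ≠ 0 → ‖((q : ℚ) : ℚ_[p])‖ = (p : ℝ) ^ (-padicValRat p q) := by
    intro q hq
    rw [Padic.eq_padicNorm, padicNorm.eq_zpow_of_nonzero hq]
    push_cast
    rfl
  -- growth of the coordinates with `c i ≠ 0`
  have hgrow : ∀ i, padicValRat p (c i) < 0 → ¬ (d : ℤ) ∣ padicValRat p (c i) →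
      Tendsto (fun n => ‖((x n i : ℚ) : ℚ_[p])‖) atTop atTop := by
    intro i hneg hndvd
    have hc0 : c i ≠ 0 := by
      intro h; rw [h] at hneg; simp at hneg
    have hp1 : (1 : ℝ) < p := by exact_mod_cast (Fact.out : p.Prime).one_lt
    have hcn : ‖((c i : ℚ) : ℚ_[p])‖ = (p : ℝ) ^ (-padicValRat p (c i)) := by
      exact hratnorm _ hc0
    set γ : ℝ := ‖((c i : ℚ) : ℚ_[p])‖ with hγ
    have hγ1 : 1 < γ := by
      rw [hcn]
      exact one_lt_zpow₀ hp1 (by omega)
    have hnev : ∀ q : ℚ, ‖((q : ℚ) : ℚ_[p]) ^ d‖ ≠ γ := by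
      intro q
      rw [norm_pow]
      by_cases hq : q = 0
      · rw [hq]
        simp only [Rat.cast_zero, norm_zero]
        rw [zero_pow hd0]
        exact (zero_lt_one.trans hγ1).ne
      · rw [hratnorm q hq, hcn, ← zpow_natCast, ← zpow_mul]
        intro h
        have h2 := zpow_right_injective₀ (by positivity) hp1.ne' h
        exact hndvd ⟨padicValRat p q, by linarith⟩
    have hmax : ∀ n, ‖((x (n + 1) i : ℚ) : ℚ_[p])‖ = max (‖((x n i : ℚ) : ℚ_[p])‖ ^ d) γ := by
      intro n
      rw [hx]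
      push_cast
      rw [IsUltrametricDist.norm_add_eq_max_of_norm_ne_norm (hnev _), norm_pow]
    have hge : ∀ n, γ ^ (n + 1) ≤ ‖((x (n + 1) i : ℚ) : ℚ_[p])‖ := by
      intro n
      induction n with
      | zero => rw [hmax]; simp
      | succ n ih =>
        rw [hmax]
        refine le_trans ?_ (le_max_left _ _)
        have h1 : 1 ≤ γ ^ (n + 1) := one_le_pow₀ hγ1.le
        calc γ ^ (n + 1 + 1) ≤ (γ ^ (n + 1)) ^ 2 := by
              rw [← pow_mul]
              exact pow_le_pow_right₀ hγ1.le (by omega)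
          _ ≤ ‖((x (n + 1) i : ℚ) : ℚ_[p])‖ ^ 2 := pow_le_pow_left₀ (by positivity) ih _
          _ ≤ ‖((x (n + 1) i : ℚ) : ℚ_[p])‖ ^ d := pow_le_pow_right₀ (h1.trans ih) hd
    have h3 : Tendsto (fun n : ℕ => γ ^ n) atTop atTop := tendsto_pow_atTop_atTop_of_one_lt hγ1
    refine (tendsto_add_atTop_iff_nat 1).mp ?_
    refine tendsto_atTop_mono hge ?_
    exact (tendsto_add_atTop_iff_nat 1).mpr h3
  rw [hcompl]
  have := result ℚ (algebraMap ℚ ℂ) p ℚ_[p] (algebraMap ℚ ℚ_[p]) m d hd hpd Φ
    (fun i => by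
      simp only [Φ]
      refine (MvPolynomial.totalDegree_add _ _).trans ?_
      rw [MvPolynomial.totalDegree_X_pow, MvPolynomial.totalDegree_C]
      simp)
    (fun i => by
      rw [hcoeff, if_pos rfl, if_neg (hsingle i).symm, add_zero]
      exact one_ne_zero) x
    (fun n i => by rw [hx]; simp [Φ])
    (fun i => by
      rcases hc i with ⟨h0, hα⟩ | ⟨hneg, hndvd⟩
      · refine Eventually.of_forall fun n => ?_
        induction n with
        | zero => exact hα
        | succ n ih => rw [hx, h0, add_zero]; exact pow_ne_zero _ ih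
      · filter_upwards [(hgrow i hneg hndvd).eventually_gt_atTop 0] with n hn h0
        rw [h0] at hn
        simp at hn)
    (fun i J hJ hJne => by
      rw [MvPolynomial.mem_support_iff, hcoeff, if_neg (fun h => hJne h.symm), zero_add] at hJ
      have hJ0 : (0 : Fin m →₀ ℕ) = J := by
        by_contra h
        rw [if_neg h] at hJ
        exact hJ rfl
      rw [if_pos hJ0] at hJ
      rcases hc i with ⟨h0, -⟩ | ⟨hneg, hndvd⟩
      · exact absurd h0 hJ
      · have h1 := hgrow i hneg hndvd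
        rw [← hJ0]
        have h2 : Tendsto (fun n => ‖((x n i : ℚ) : ℚ_[p])‖ ^ d) atTop atTop :=
          (tendsto_pow_atTop hd0).comp h1
        have h3 := h2.inv_tendsto_atTop
        refine h3.congr fun n => ?_
        simp) V
  exact this

end Pool.Agent.Results.MP_295d38_ag.WildEscape
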